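import Pool.Agent.helper66.PX.Spec

/-!
# PX row FR (MP_3938c6_al)

Razmyslov's transform with commutators is a multilinear expression with integer coefficients, uniformly in the ring.
-/

set_option autoImplicit false

noncomputable section

namespace Pool.Agent.PX

universe u v w

/-- `F` is given by the multilinear expression in the variables `s` with some integer coefficients. -/
def FR_Rep (s : List ℕ) (F : ∀ (R : Type w) [Ring R], (ℕ → R) → R) : Prop :=
  ∃ c : List ℕ → ℤ, ∀ (R : Type w) [Ring R] (x : ℕ → R), EV c s x = F R x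

theorem FR_perm {s t : List ℕ} (h : s.Perm t) {F : ∀ (R : Type w) [Ring R], (ℕ → R) → R}
    (hF : FR_Rep s F) : FR_Rep t F := by
  obtain ⟨c, hc⟩ := hF
  refine ⟨c, fun R _ x => ?_⟩
  rw [← hc R x]
  unfold EV
  have hs : t.permutations.toFinset = s.permutations.toFinset := by
    ext w
    simp only [List.mem_toFinset, List.mem_permutations]
    exact ⟨fun hw => hw.trans h.symm, fun hw => hw.trans h⟩
  rw [hs]

theorem FR_one : FR_Rep.{w} [] (fun _ _ _ => 1) := by
  refine ⟨fun _ => 1, fun R _ x => ?_⟩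
  simp [EV]

theorem FR_var (i : ℕ) : FR_Rep.{w} [i] (fun _ _ x => x i) := by
  refine ⟨fun _ => 1, fun R _ x => ?_⟩
  have h : ([i] : List ℕ).permutations.toFinset = {[i]} := by
    ext w
    simp only [List.mem_toFinset, List.mem_permutations, Finset.mem_singleton]
    exact List.perm_singleton
  show EV (fun _ => (1 : ℤ)) [i] x = x i
  unfold EV
  rw [h, Finset.sum_singleton]
  simp

theorem FR_sub {s : List ℕ} {F G : ∀ (R : Type w) [Ring R], (ℕ → R) → R}
    (hF : FR_Rep s F) (hG : FR_Rep s G) : FR_Rep s (fun R _ x => F R x - G R x) := by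
  obtain ⟨c, hc⟩ := hF
  obtain ⟨d, hd⟩ := hG
  refine ⟨fun w => c w - d w, fun R _ x => ?_⟩
  show EV (fun w => c w - d w) s x = F R x - G R x
  rw [← hc R x, ← hd R x]
  unfold EV
  rw [← Finset.sum_sub_distrib]
  refine Finset.sum_congr rfl fun w _ => ?_
  rw [sub_smul]

theorem FR_sum {ι : Type} (A : Finset ι) {s : List ℕ} (a : ι → ℤ)
    (F : ι → ∀ (R : Type w) [Ring R], (ℕ → R) → R) (hF : ∀ i, FR_Rep s (F i)) :
    FR_Rep s (fun R _ x => ∑ i ∈ A, a i • F i R x) := by
  choose c hc using hF
  refine ⟨fun w => ∑ i ∈ A, a i * c i w, fun R _ x => ?_⟩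
  show EV (fun w => ∑ i ∈ A, a i * c i w) s x = ∑ i ∈ A, a i • F i R x
  unfold EV
  simp_rw [Finset.sum_smul]
  rw [Finset.sum_comm]
  refine Finset.sum_congr rfl fun i _ => ?_
  rw [← hc i R x]
  unfold EV
  rw [Finset.smul_sum]
  refine Finset.sum_congr rfl fun w _ => ?_
  rw [mul_smul]

theorem FR_mul {s t : List ℕ} {F G : ∀ (R : Type w) [Ring R], (ℕ → R) → R}
    (hF : FR_Rep s F) (hG : FR_Rep t G) : FR_Rep (s ++ t) (fun R _ x => F R x * G R x) := by
  obtain ⟨c, hc⟩ := hF
  obtain ⟨d, hd⟩ := hG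
  refine ⟨fun w => if (w.take s.length).Perm s then c (w.take s.length) * d (w.drop s.length) else 0,
    fun R _ x => ?_⟩
  show EV (fun w => if (w.take s.length).Perm s then c (w.take s.length) * d (w.drop s.length) else 0)
    (s ++ t) x = F R x * G R x
  rw [← hc R x, ← hd R x]
  unfold EV
  rw [Finset.sum_mul_sum, ← Finset.sum_product']
  have h1 : ∀ w : List ℕ, (if (w.take s.length).Perm s then c (w.take s.length) * d (w.drop s.length) else (0:ℤ)) •
      (w.map x).prod = if (w.take s.length).Perm s then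
        (c (w.take s.length) * d (w.drop s.length)) • (w.map x).prod else 0 := by
    intro w
    split_ifs
    · rfl
    · rw [zero_smul]
  rw [Finset.sum_congr rfl fun w _ => h1 w, ← Finset.sum_filter]
  symm
  refine Finset.sum_bij' (fun p _ => p.1 ++ p.2) (fun w _ => (w.take s.length, w.drop s.length)) ?_ ?_ ?_ ?_ ?_
  · rintro ⟨a, b⟩ hab
    simp only [Finset.mem_product, List.mem_toFinset, List.mem_permutations] at hab
    simp only [Finset.mem_filter, List.mem_toFinset, List.mem_permutations]
    refine ⟨hab.1.append hab.2, ?_⟩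
    have hl : a.length = s.length := hab.1.length_eq
    rw [← hl, List.take_left]
    exact hab.1.trans (by rw [])
  · intro w hw
    simp only [Finset.mem_filter, List.mem_toFinset, List.mem_permutations] at hw
    simp only [Finset.mem_product, List.mem_toFinset, List.mem_permutations]
    refine ⟨hw.2, ?_⟩
    have h2 : (w.take s.length ++ w.drop s.length).Perm (s ++ t) := by
      rw [List.take_append_drop]; exact hw.1
    have h3 : (s ++ w.drop s.length).Perm (s ++ t) :=
      ((hw.2.append_right (w.drop s.length)).symm).trans h2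
    exact (List.perm_append_left_iff s).1 h3
  · rintro ⟨a, b⟩ hab
    simp only [Finset.mem_product, List.mem_toFinset, List.mem_permutations] at hab
    have hl : a.length = s.length := hab.1.length_eq
    show (List.take s.length (a ++ b), List.drop s.length (a ++ b)) = (a, b)
    rw [← hl, List.take_left, List.drop_left]
  · intro w _
    exact List.take_append_drop _ _
  · rintro ⟨a, b⟩ hab
    simp only [Finset.mem_product, List.mem_toFinset, List.mem_permutations] at hab
    have hl : a.length = s.length := hab.1.length_eq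
    show c a • (a.map x).prod * d b • (b.map x).prod =
      (c (List.take s.length (a ++ b)) * d (List.drop s.length (a ++ b))) • ((a ++ b).map x).prod
    rw [← hl, List.take_left, List.drop_left, List.map_append, List.prod_append, smul_mul_smul_comm]

theorem FR_list {n : ℕ} (f : Fin n → List ℕ) (F : Fin n → ∀ (R : Type w) [Ring R], (ℕ → R) → R)
    (l : List (Fin n)) (hF : ∀ k ∈ l, FR_Rep (f k) (F k)) :
    FR_Rep (l.map f).flatten (fun R _ x => (l.map fun k => F k R x).prod) := by
  induction l with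
  | nil => simpa using FR_one.{w}
  | cons a l ih =>
    have h1 := hF a (by simp)
    have h2 := ih fun k hk => hF k (by simp [hk])
    have h3 := FR_mul h1 h2
    simpa using h3

theorem FR_comm (i j : ℕ) : FR_Rep.{w} [i, j] (fun _ _ x => x i * x j - x j * x i) := by
  have h1 : FR_Rep.{w} [i, j] (fun _ _ x => x i * x j) := FR_mul (FR_var i) (FR_var j)
  have h2 : FR_Rep.{w} [j, i] (fun _ _ x => x j * x i) := FR_mul (FR_var j) (FR_var i)
  exact FR_sub h1 (FR_perm (List.Perm.swap i j []) h2)

/-- the variables of the `k`-th block. -/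
def FR_f (m : ℕ) (σ : Equiv.Perm (Fin (m + 1))) (k : Fin (m + 1)) : List ℕ :=
  [3 * k.val + 3] ++ [3 * (σ k).val + 1, 3 * (σ k).val + 2]

/-- the variables of the summand of `σ`. -/
def FR_T (m : ℕ) (σ : Equiv.Perm (Fin (m + 1))) : List ℕ :=
  ((((List.finRange (m + 1)).drop ((σ⁻¹ 0 : Fin (m + 1)).val + 1)).map (FR_f m σ)).flatten ++ [3 * (m + 1) + 3]) ++ [0] ++
    ((((List.finRange (m + 1)).take (σ⁻¹ 0 : Fin (m + 1)).val).map (FR_f m σ)).flatten ++
      [3 * (σ⁻¹ 0 : Fin (m + 1)).val + 3])

theorem FR_summand (m : ℕ) (σ : Equiv.Perm (Fin (m + 1))) :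
    FR_Rep.{w} (FR_T m σ) (fun _ _ x =>
      ((((List.ofFn fun k : Fin (m + 1) => x (3 * k.val + 3) *
          (x (3 * (σ k).val + 1) * x (3 * (σ k).val + 2) - x (3 * (σ k).val + 2) * x (3 * (σ k).val + 1))).drop
            ((σ⁻¹ 0 : Fin (m + 1)).val + 1)).prod * x (3 * (m + 1) + 3)) * x 0 *
      (((List.ofFn fun k : Fin (m + 1) => x (3 * k.val + 3) *
          (x (3 * (σ k).val + 1) * x (3 * (σ k).val + 2) - x (3 * (σ k).val + 2) * x (3 * (σ k).val + 1))).take
            (σ⁻¹ 0 : Fin (m + 1)).val).prod * x (3 * (σ⁻¹ 0 : Fin (m + 1)).val + 3)))) := by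
  have hb : ∀ l : List (Fin (m + 1)), FR_Rep.{w} (l.map (FR_f m σ)).flatten (fun R _ x =>
      (l.map fun k : Fin (m + 1) => x (3 * k.val + 3) *
          (x (3 * (σ k).val + 1) * x (3 * (σ k).val + 2) - x (3 * (σ k).val + 2) * x (3 * (σ k).val + 1))).prod) := by
    intro l
    exact FR_list (FR_f m σ) (fun k _ _ x => x (3 * k.val + 3) *
          (x (3 * (σ k).val + 1) * x (3 * (σ k).val + 2) - x (3 * (σ k).val + 2) * x (3 * (σ k).val + 1))) l
      fun k _ => FR_mul (FR_var _) (FR_comm _ _)
  have h1 := hb ((List.finRange (m + 1)).drop ((σ⁻¹ 0 : Fin (m + 1)).val + 1))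
  have h2 := hb ((List.finRange (m + 1)).take (σ⁻¹ 0 : Fin (m + 1)).val)
  have h3 := FR_mul (FR_mul (FR_mul h1 (FR_var (3 * (m + 1) + 3))) (FR_var 0))
    (FR_mul h2 (FR_var (3 * (σ⁻¹ 0 : Fin (m + 1)).val + 3)))
  simp only [List.ofFn_eq_map, ← List.map_drop, ← List.map_take]
  exact h3

theorem FR_coe {n : ℕ} (f : Fin n → List ℕ) :
    (((List.finRange n).map f).flatten : Multiset ℕ) = ∑ k, (f k : Multiset ℕ) := by
  rw [← List.ofFn_eq_map]
  induction n with
  | zero => simp
  | succ n ih =>
    rw [List.ofFn_succ, List.flatten_cons, ← Multiset.coe_add, ih, Fin.sum_univ_succ]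

theorem FR_T_coe (m : ℕ) (σ : Equiv.Perm (Fin (m + 1))) :
    ((FR_T m σ ++ [1, 2] : List ℕ) : Multiset ℕ) =
      ∑ k : Fin (m + 1), (([3 * k.val + 3] : List ℕ) : Multiset ℕ) +
      ∑ k : Fin (m + 1), (([3 * k.val + 1, 3 * k.val + 2] : List ℕ) : Multiset ℕ) +
      (([3 * (m + 1) + 3, 0] : List ℕ) : Multiset ℕ) := by
  set p : Fin (m + 1) := σ⁻¹ 0 with hp
  have hσp : σ p = 0 := by rw [hp]; simp
  have hsplit : List.finRange (m + 1) = (List.finRange (m + 1)).take p.val ++
      p :: (List.finRange (m + 1)).drop (p.val + 1) := by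
    have h0 := List.take_append_drop p.val (List.finRange (m + 1))
    have hlt : p.val < (List.finRange (m + 1)).length := by rw [List.length_finRange]; exact p.isLt
    rw [List.drop_eq_getElem_cons hlt] at h0
    simp only [List.getElem_finRange] at h0
    exact h0.symm
  have hfl := FR_coe (FR_f m σ)
  rw [hsplit] at hfl
  have hfp : FR_f m σ p = [3 * p.val + 3] ++ [1, 2] := by
    unfold FR_f
    rw [hσp]
    simp
  have hR : ∑ k, (FR_f m σ k : Multiset ℕ) = ∑ k : Fin (m + 1), (([3 * k.val + 3] : List ℕ) : Multiset ℕ) +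
      ∑ k : Fin (m + 1), (([3 * k.val + 1, 3 * k.val + 2] : List ℕ) : Multiset ℕ) := by
    rw [← Equiv.sum_comp σ (fun k : Fin (m + 1) => (([3 * k.val + 1, 3 * k.val + 2] : List ℕ) : Multiset ℕ)),
      ← Finset.sum_add_distrib]
    refine Finset.sum_congr rfl fun k _ => ?_
    unfold FR_f
    rw [Multiset.coe_add]
  rw [hR] at hfl
  rw [← hfl, List.map_append, List.map_cons, List.flatten_append, List.flatten_cons, hfp]
  unfold FR_T
  rw [← hp]
  simp only [← Multiset.coe_add]
  have h12 : (([3 * (m + 1) + 3, 0] : List ℕ) : Multiset ℕ) =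
      (([3 * (m + 1) + 3] : List ℕ) : Multiset ℕ) + (([0] : List ℕ) : Multiset ℕ) := by
    rw [Multiset.coe_add]; rfl
  rw [h12]
  abel

theorem FR : FR_stmt.{w} := by
  intro m
  have hperm : ∀ σ : Equiv.Perm (Fin (m + 1)), (FR_T m σ).Perm (FR_T m 1) := by
    intro σ
    have h1 : (FR_T m σ ++ [1, 2]).Perm (FR_T m 1 ++ [1, 2]) := by
      rw [← Multiset.coe_eq_coe, FR_T_coe, FR_T_coe]
    exact (List.perm_append_right_iff [1, 2]).1 h1
  have hrep : FR_Rep.{w} (FR_T m 1) (fun R _ x => ∑ σ : Equiv.Perm (Fin (m + 1)), (Equiv.Perm.sign σ : ℤ) •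
      ((((List.ofFn fun k : Fin (m + 1) => x (3 * k.val + 3) *
          (x (3 * (σ k).val + 1) * x (3 * (σ k).val + 2) - x (3 * (σ k).val + 2) * x (3 * (σ k).val + 1))).drop
            ((σ⁻¹ 0 : Fin (m + 1)).val + 1)).prod * x (3 * (m + 1) + 3)) * x 0 *
      (((List.ofFn fun k : Fin (m + 1) => x (3 * k.val + 3) *
          (x (3 * (σ k).val + 1) * x (3 * (σ k).val + 2) - x (3 * (σ k).val + 2) * x (3 * (σ k).val + 1))).take
            (σ⁻¹ 0 : Fin (m + 1)).val).prod * x (3 * (σ⁻¹ 0 : Fin (m + 1)).val + 3)))) :=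
    FR_sum Finset.univ (fun σ : Equiv.Perm (Fin (m + 1)) => (Equiv.Perm.sign σ : ℤ)) _
      fun σ => FR_perm (hperm σ) (FR_summand m σ)
  obtain ⟨c, hc⟩ := hrep
  refine ⟨FR_T m 1, c, ?_, ?_, fun R _ x => hc R x⟩
  · have hnd : ((FR_T m 1 ++ [1, 2] : List ℕ) : Multiset ℕ).Nodup := by
      rw [FR_T_coe]
      have h1 : ∑ k : Fin (m + 1), (([3 * k.val + 3] : List ℕ) : Multiset ℕ) =
          (((List.finRange (m + 1)).map fun k => 3 * k.val + 3 : List ℕ) : Multiset ℕ) := by
        rw [← FR_coe (fun k : Fin (m + 1) => [3 * k.val + 3])]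
        congr 1
        induction (List.finRange (m + 1)) with
        | nil => rfl
        | cons a l ih => simp [ih]
      have h2 : ∑ k : Fin (m + 1), (([3 * k.val + 1, 3 * k.val + 2] : List ℕ) : Multiset ℕ) =
          (((List.finRange (m + 1)).map fun k => 3 * k.val + 1 : List ℕ) : Multiset ℕ) +
          (((List.finRange (m + 1)).map fun k => 3 * k.val + 2 : List ℕ) : Multiset ℕ) := by
        have h3 : ∀ g : Fin (m + 1) → ℕ, ∑ k : Fin (m + 1), (([g k] : List ℕ) : Multiset ℕ) =
            (((List.finRange (m + 1)).map g : List ℕ) : Multiset ℕ) := by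
          intro g
          rw [← FR_coe (fun k : Fin (m + 1) => [g k])]
          congr 1
          induction (List.finRange (m + 1)) with
          | nil => rfl
          | cons a l ih => simp [ih]
        rw [← h3, ← h3, ← Finset.sum_add_distrib]
        refine Finset.sum_congr rfl fun k _ => ?_
        rw [Multiset.coe_add]; rfl
      rw [h1, h2]
      simp only [Multiset.coe_add, Multiset.coe_nodup]
      have hinj : ∀ g : Fin (m + 1) → ℕ, Function.Injective g → ((List.finRange (m + 1)).map g).Nodup :=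
        fun g hg => (List.nodup_finRange (m + 1)).map hg
      have e1 := hinj (fun k => 3 * k.val + 3) (fun a b h => by simp only at h; exact Fin.ext (by omega))
      have e2 := hinj (fun k => 3 * k.val + 1) (fun a b h => by simp only at h; exact Fin.ext (by omega))
      have e3 := hinj (fun k => 3 * k.val + 2) (fun a b h => by simp only at h; exact Fin.ext (by omega))
      rw [List.nodup_append', List.nodup_append', List.nodup_append']
      refine ⟨⟨e1, ⟨e2, e3, ?_⟩, ?_⟩, ?_, ?_⟩
      · intro a ha hb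
        simp only [List.mem_map] at ha hb
        obtain ⟨k, _, hk⟩ := ha
        obtain ⟨l, _, hl⟩ := hb
        omega
      · intro a ha hb
        simp only [List.mem_map, List.mem_append] at ha hb
        obtain ⟨k, _, hk⟩ := ha
        rcases hb with ⟨l, _, hl⟩ | ⟨l, _, hl⟩ <;> omega
      · simp
      · intro a ha hb
        simp only [List.mem_map, List.mem_append, List.mem_cons, List.not_mem_nil, or_false] at ha hb
        rcases ha with ⟨k, _, hk⟩ | ⟨k, _, hk⟩ | ⟨k, _, hk⟩ <;> have := k.isLt <;> rcases hb with hb | hb <;> omega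
    rw [Multiset.coe_nodup] at hnd
    exact (List.nodup_append'.1 hnd).1
  · unfold FR_T
    simp

end Pool.Agent.PX
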